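import Pool.Agent.MP_3d7de8_lc.Exists

universe u

open Pool.Agent.MP_3d7de8_lc

/-- Q1: the free `n`-nilpotent associative `K`-algebra of rank `r` exists and is logically
homogeneous. -/
theorem Pool.Agent.Results.MP_3d7de8_lc.FreeNilpotent.result
    (K : Type u) [Field K] (n r : ℕ) (hn : 1 ≤ n) :
    (∃ (H : Type u) (_ : NonUnitalRing H) (_ : Module K H) (_ : IsScalarTower K H H)
      (_ : SMulCommClass K H H) (x : Fin r → H),
      IsFreeIn K (fun B _ _ => algPow K B n = ⊥) H x) ∧
    ∀ (H : Type u) [NonUnitalRing H] [Module K H] [IsScalarTower K H H] [SMulCommClass K H H]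
      (x : Fin r → H), IsFreeIn K (fun B _ _ => algPow K B n = ⊥) H x →
      LogicallyHomogeneous K H :=
  ⟨exists_free_nilpotent K r hn, fun _ _ _ _ _ _ h => homogeneous_free_nilpotent hn h⟩
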