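import Pool.Agent.MP_3d7de8_lc.PPMain

universe u v w

open Pool.Agent.MP_3d7de8_lc.PP

/-- In a relatively free nilpotent algebra of any rank, finite or infinite, two tuples with the
same positive primitive type are conjugate under an automorphism. -/
theorem Pool.Agent.Results.MP_3d7de8_lc.PositiveTypes.result
    (K : Type u) [Field K] (H : Type v) [NonUnitalNonAssocRing H] [Module K H]
    [IsScalarTower K H H] [SMulCommClass K H H] (n : ℕ) (hn : naPow K H n = ⊥)
    (ι : Type w) (x : ι → H) (hgen : NonUnitalAlgebra.adjoin K (Set.range x) = ⊤)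
    (hfree : ∀ y : ι → H, ∃ f : H →ₙₐ[K] H, ∀ i, f (x i) = y i)
    (m : ℕ) (μ₁ μ₂ : Fin m → H) (htp : ppTp K H μ₁ = ppTp K H μ₂) :
    ∃ σ : H →ₙₐ[K] H, Function.Bijective σ ∧ ∀ j, σ (μ₁ j) = μ₂ j :=
  pp_homogeneous hn hgen hfree μ₁ μ₂ htp
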